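import Pool.Agent.Helper19.PS.Defs

/-!
# Project PS (MP_19c155_gt): statements of the light pieces.  Not imported by any result.
Each piece is to be proved in a separate file of the prover; hints in /team-store/PS_hints.md.
-/

open MeasureTheory Set Metric Filter Module Matrix
open scoped NNReal Topology RealInnerProductSpace ENNReal Real

namespace Pool.Agent.Helper19.PS.Spec

open Pool.Agent.Helper20.VF (gm gw)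

/-! ### PS-1 -/

theorem det_weight {d : ℕ} (hd : 0 < d) (G : Matrix (Fin d) (Fin d) ℝ) (hG : G.PosSemidef)
    (v : Fin d → ℝ) (hv : v ⬝ᵥ v = 1) (s : ℝ) (hs0 : 0 ≤ s) (hs1 : s ≤ 1) :
    0 ≤ trace G - (1 - s) * (v ⬝ᵥ (G *ᵥ v)) ∧
    s * G.det ≤ ((trace G - (1 - s) * (v ⬝ᵥ (G *ᵥ v))) / d) ^ d := sorry

/-! ### PS-2 -/

theorem NF.be_eq {d : ℕ} (S : NF d) :
    ∑ i, (S.b i ⬝ᵥ S.b i + 1 / 2 * trace ((S.C i)ᵀ * S.C i)) = S.be := sorry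

theorem NF.be_nonneg {d : ℕ} (S : NF d) : 0 ≤ S.be := sorry

theorem NF.be_le {d : ℕ} (S : NF d) : S.be ≤ d := sorry

theorem NF.pp_le {d : ℕ} (S : NF d) (y : Fin d → ℝ) : S.pp y ≤ y ⬝ᵥ y := sorry

theorem NF.BB_le {d : ℕ} (S : NF d) (τ : ℝ) (y : Fin d → ℝ) :
    S.BB τ y ≤ S.be * (τ ^ 2 + y ⬝ᵥ y) := sorry

theorem NF.SS_sq {d : ℕ} (S : NF d) (y : Fin d → ℝ) :
    S.SS y ^ 2 ≤ S.pp y * (S.be * (y ⬝ᵥ y)) := sorry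

/-! ### PS-3 -/

theorem NF.posSemidef_G {d : ℕ} (S : NF d) (z τ : ℝ) (y : Fin d → ℝ) :
    (S.G z τ y).PosSemidef := sorry

theorem NF.trace_G {d : ℕ} (S : NF d) (z τ : ℝ) (y : Fin d → ℝ) :
    trace (S.G z τ y) = (d - S.be) * z ^ 2 + S.pp y + S.BB τ y := sorry

theorem NF.quad_G {d : ℕ} (S : NF d) (z τ : ℝ) (y : Fin d → ℝ) :
    S.pp y * (S.pp y * (z ^ 2 + y ⬝ᵥ y) + 2 * z * τ * S.SS y)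
      ≤ (y ⬝ᵥ y) * ((fun i => S.a i ⬝ᵥ y) ⬝ᵥ (S.G z τ y *ᵥ fun i => S.a i ⬝ᵥ y)) := sorry

/-! ### PS-4 (uses PS-1, PS-2, PS-3) -/

theorem NF.pointwise {d : ℕ} (S : NF d) (m : ℕ) (hd : d = 2 * m) (hm : 1 ≤ m) (c : ℝ)
    (hc0 : 0 ≤ c) (hc1 : c ≤ 1) (z τ : ℝ) (hz : z ≠ 0) (y : Fin d → ℝ) :
    0 ≤ (d - S.be) * z ^ 2 + c * (y ⬝ᵥ y) + S.BB τ y + S.oo c z τ y ∧
    √(S.G z τ y).det ≤ √(z ^ 2 + y ⬝ᵥ y) / √(z ^ 2 + c * (y ⬝ᵥ y))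
      * (((d - S.be) * z ^ 2 + c * (y ⬝ᵥ y) + S.BB τ y + S.oo c z τ y) / d) ^ m := sorry

/-! ### PS-5 (uses PS-2) -/

theorem NF.oo_sq {d : ℕ} (S : NF d) (c : ℝ) (hc0 : 0 ≤ c) (hc1 : c ≤ 1) (z τ : ℝ)
    (y : Fin d → ℝ) : S.oo c z τ y ^ 2 ≤ 4 * S.be * τ ^ 2 * z ^ 2 := sorry

theorem NF.oo_abs {d : ℕ} (S : NF d) (c : ℝ) (hc0 : 0 ≤ c) (hc1 : c ≤ 1) (z τ : ℝ)
    (y : Fin d → ℝ) : |S.oo c z τ y| ≤ z ^ 2 + S.be * τ ^ 2 := sorry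

/-- elementary -/
theorem pow_even_taylor (m : ℕ) (hm : 2 ≤ m) (M o : ℝ) (hM : 0 ≤ M) :
    (M + o) ^ m + (M - o) ^ m ≤ 2 * M ^ m + m * (m - 1) * o ^ 2 * (M + |o|) ^ (m - 2) := sorry

/-- elementary -/
theorem pow_taylor (m : ℕ) (hm : 2 ≤ m) (x R : ℝ) (hx : 0 ≤ x) (hR : 0 ≤ R) :
    (x + R) ^ m ≤ x ^ m + m * x ^ (m - 1) * R + m * (m - 1) / 2 * R ^ 2 * (x + R) ^ (m - 2) := sorry

/-! ### PS-6 (uses PS-2, PS-4, PS-5) -/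

theorem NF.sym_bound {d : ℕ} (S : NF d) (m : ℕ) (hd : d = 2 * m) (hm : 3 ≤ m) (c : ℝ)
    (hc0 : 0 ≤ c) (hc1 : c ≤ 1) (z τ : ℝ) (hz : z ≠ 0) (y : Fin d → ℝ) :
    √(S.G z τ y).det + √(S.G (-z) τ y).det + √(S.G z (-τ) y).det + √(S.G (-z) (-τ) y).det
      ≤ 4 * (√(z ^ 2 + y ⬝ᵥ y) * S.hh m c z τ y) := sorry

/-! ### PS-7 -/

theorem NF.measurable_hh {d : ℕ} (S : NF d) (m : ℕ) (c : ℝ) :
    Measurable (fun p : (ℝ × ℝ) × EuclideanSpace ℝ (Fin d) => S.hh m c p.1.1 p.1.2 p.2.ofLp) := sorry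

theorem NF.hh_nonneg {d : ℕ} (S : NF d) (m : ℕ) (hm : 2 ≤ m) (c : ℝ) (hc0 : 0 ≤ c) (z τ : ℝ)
    (y : Fin d → ℝ) : 0 ≤ S.hh m c z τ y := sorry

theorem NF.hh_anti {d : ℕ} (S : NF d) (m : ℕ) (hm : 2 ≤ m) (c : ℝ) (hc0 : 0 ≤ c) (z τ : ℝ)
    (y : Fin d → ℝ) (r s : ℝ) (hr : 0 < r) (hrs : r ≤ s) :
    r ^ (2 * m - 1) * S.hh m c (s * z) τ (s • y) ≤ s ^ (2 * m - 1) * S.hh m c (r * z) τ (r • y) := sorry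

/-! ### PS-8 -/

theorem rho_E {E : Type*} [NormedAddCommGroup E] [InnerProductSpace ℝ E] [FiniteDimensional ℝ E]
    [MeasurableSpace E] [BorelSpace E] [Nontrivial E] (q : ℕ) (F : E → ℝ) (hFm : Measurable F)
    (hF0 : ∀ x, 0 ≤ F x)
    (hF : ∀ x, ∀ r s : ℝ, 0 < r → r ≤ s → r ^ q * F (s • x) ≤ s ^ q * F (r • x)) :
    ∫⁻ x, ENNReal.ofReal (‖x‖ * F x * gw x)
      ≤ ENNReal.ofReal (gm (finrank ℝ E + q) / gm (finrank ℝ E - 1 + q))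
        * ∫⁻ x, ENNReal.ofReal (F x * gw x) := sorry

/-! ### PS-9 (uses PS-8) -/

theorem II_rho {d : ℕ} (hd : 1 ≤ d) (q : ℕ) (F : ℝ → ℝ → EuclideanSpace ℝ (Fin d) → ℝ)
    (hFm : Measurable (fun p : (ℝ × ℝ) × EuclideanSpace ℝ (Fin d) => F p.1.1 p.1.2 p.2))
    (hF0 : ∀ z τ y, 0 ≤ F z τ y)
    (hF : ∀ z τ y, ∀ r s : ℝ, 0 < r → r ≤ s → r ^ q * F (s * z) τ (s • y) ≤ s ^ q * F (r * z) τ (r • y)) :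
    II d (fun z τ y => √(z ^ 2 + ‖y‖ ^ 2) * F z τ y)
      ≤ ENNReal.ofReal (gm (d + 1 + q) / gm (d + q)) * II d F := sorry

/-- the weight `|e|` on all of `ℝ^(d+2)`. -/
theorem II_weight {d : ℕ} (q : ℕ) (F : ℝ → ℝ → EuclideanSpace ℝ (Fin d) → ℝ)
    (hFm : Measurable (fun p : (ℝ × ℝ) × EuclideanSpace ℝ (Fin d) => F p.1.1 p.1.2 p.2))
    (hF0 : ∀ z τ y, 0 ≤ F z τ y)
    (hF : ∀ z τ y, ∀ r : ℝ, 0 < r → F (r * z) (r * τ) (r • y) = r ^ q * F z τ y) :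
    II d (fun z τ y => √(z ^ 2 + τ ^ 2 + ‖y‖ ^ 2) * F z τ y)
      ≤ ENNReal.ofReal (gm (d + 2 + q) / gm (d + 1 + q)) * II d F := sorry

/-! ### PS-10 -/

theorem II_sym {d : ℕ} (F F' : ℝ → ℝ → EuclideanSpace ℝ (Fin d) → ℝ)
    (hFm : Measurable (fun p : (ℝ × ℝ) × EuclideanSpace ℝ (Fin d) => F p.1.1 p.1.2 p.2))
    (hF0 : ∀ z τ y, 0 ≤ F z τ y)
    (h : ∀ z τ y, z ≠ 0 → F z τ y + F (-z) τ y + F z (-τ) y + F (-z) (-τ) y ≤ 4 * F' z τ y) :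
    II d F ≤ II d F' := sorry

theorem II_rot {d : ℕ} (O : Matrix (Fin 2 ⊕ Fin d) (Fin 2 ⊕ Fin d) ℝ) (hO : Oᵀ * O = 1)
    (F : (Fin 2 ⊕ Fin d → ℝ) → ℝ) (hFm : Measurable F) (hF0 : ∀ x, 0 ≤ F x) :
    II d (fun z τ y => F (O *ᵥ vec z τ y.ofLp)) = II d (fun z τ y => F (vec z τ y.ofLp)) := sorry

/-! ### PS-11 -/

theorem II_abs_pow (d k : ℕ) :
    II d (fun z _ _ => |z| ^ k) = ENNReal.ofReal (2 * gm k * (2 * π) ^ (((d : ℝ) + 1) / 2)) := sorry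

theorem II_RS {d : ℕ} (S : NF d) (k : ℕ) (c : ℝ) (hc0 : 0 ≤ c) :
    II d (fun z τ y => |z| ^ k * S.RS c τ y.ofLp)
      = ENNReal.ofReal (2 * gm k * (2 * π) ^ (((d : ℝ) + 1) / 2) * (c * d + 2 * S.be)) := sorry

/-! ### PS-12 -/

theorem int_z1 (k : ℕ) (w : ℝ) (hw : 0 ≤ w) :
    ∫⁻ z : ℝ, ENNReal.ofReal (|z| * (z ^ 2 + w) ^ k * Real.exp (-z ^ 2 / 2))
      ≤ ENNReal.ofReal (2 * gm (2 * k + 1) * Real.exp (w / 2)) := sorry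

theorem int_z2 (k : ℕ) (hk : 1 ≤ k) (w : ℝ) (hw : 0 ≤ w) :
    ∫⁻ z : ℝ, ENNReal.ofReal (|z|⁻¹ * ((z ^ 2 + w) ^ k - w ^ k) * Real.exp (-z ^ 2 / 2))
      ≤ ENNReal.ofReal (2 * gm (2 * k - 1) * Real.exp w) := sorry

/-! ### PS-13 -/

theorem JJ_tau (d : ℕ) (t : ℝ) (ht : t < 1 / 2) :
    JJ d (fun τ y => τ ^ 2 * Real.exp (t * (‖y‖ ^ 2 + τ ^ 2)))
      = ENNReal.ofReal ((2 * π) ^ (((d : ℝ) + 1) / 2) * (1 - 2 * t) ^ (-(((d : ℝ) + 3) / 2))) := sorry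

theorem JJ_sq (d : ℕ) (t : ℝ) (ht : t < 1 / 2) :
    JJ d (fun τ y => (‖y‖ ^ 2 + τ ^ 2) ^ 2 * Real.exp (t * (‖y‖ ^ 2 + τ ^ 2)))
      = ENNReal.ofReal ((2 * π) ^ (((d : ℝ) + 1) / 2) * ((d + 1) * (d + 3))
        * (1 - 2 * t) ^ (-(((d : ℝ) + 5) / 2))) := sorry

theorem JJ_inv (m : ℕ) (hm : 2 ≤ m) :
    JJ (2 * m) (fun τ y => (‖y‖ ^ 2 + τ ^ 2) ^ m * ‖y‖⁻¹)
      ≤ ENNReal.ofReal ((2 * π) ^ ((((2 * m : ℕ) : ℝ) + 1) / 2) * ((3 * m) ^ m / √(2 * m - 2))) := sorry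

/-! ### PS-14 (uses PS-12, PS-13) -/

theorem II_h3 (m : ℕ) (hm : 3 ≤ m) (c e1 e3 be : ℝ) (hc : 0 < c) (he1 : 0 ≤ e1) (he3 : 0 ≤ e3)
    (he3' : 2 * e3 < 2 * m + 1) (hbe : 0 ≤ be) :
    II (2 * m) (fun z τ y => h3 (2 * m) m c e1 e3 be z τ (‖y‖ ^ 2))
      ≤ ENNReal.ofReal ((m * (m - 1) / 2) / (2 * m) ^ m * (2 * π) ^ ((((2 * m : ℕ) : ℝ) + 1) / 2)
        * (4 * be * (2 * m + 1) ^ (m - 2) * (2 * gm (2 * m - 3))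
              * (1 - e3 / (2 * m + 1)) ^ (-((2 * (m : ℝ) + 3) / 2))
          + e1 ^ 2 * ((2 * m + 1) ^ (m - 2) * (2 * gm (2 * m - 5))
              * ((2 * m + 1) * (2 * m + 3)) * (1 - 2 * e3 / (2 * m + 1)) ^ (-((2 * (m : ℝ) + 5) / 2))
            + e3 ^ (m - 2) * (√c)⁻¹ * √(2 * π) * ((3 * m) ^ m / √(2 * m - 2))))) := sorry

/-! ### PS-15 -/

theorem scalar_ineq (m : ℕ) (hm : 3 ≤ m) (be c : ℝ) (hbe0 : 0 < be) (hbe1 : be ≤ be1 (2 * m))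
    (hc : c = be / (4 * m)) :
    (1 - be / (2 * m)) ^ m * (2 * gm (2 * m - 1))
      + 1 / 2 * (2 * gm (2 * m - 3)) * (c * (2 * m) + 2 * be)
      + (m * (m - 1) / 2) / (2 * m) ^ m
        * (4 * be * (2 * m + 1) ^ (m - 2) * (2 * gm (2 * m - 3))
              * (1 - (2 * be + c) / (2 * m + 1)) ^ (-((2 * (m : ℝ) + 3) / 2))
          + (be + c) ^ 2 * ((2 * m + 1) ^ (m - 2) * (2 * gm (2 * m - 5))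
              * ((2 * m + 1) * (2 * m + 3))
              * (1 - 2 * (2 * be + c) / (2 * m + 1)) ^ (-((2 * (m : ℝ) + 5) / 2))
            + (2 * be + c) ^ (m - 2) * (√c)⁻¹ * √(2 * π) * ((3 * m) ^ m / √(2 * m - 2))))
      ≤ 2 * gm (2 * m - 1) * (1 - be / 100) := sorry

/-! ### PS-16 -/

theorem top_eigen {ι : Type*} [Fintype ι] [DecidableEq ι] (T : Matrix ι ι ℝ) (hT : Tᵀ = T)
    (ζ : ι → ℝ) (hζ : ζ ⬝ᵥ ζ = 1) :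
    ∃ (ξ : ι → ℝ) (l : ℝ), ξ ⬝ᵥ ξ = 1 ∧ T *ᵥ ξ = l • ξ ∧ ζ ⬝ᵥ (T *ᵥ ζ) ≤ l := sorry

theorem exists_frame {d : ℕ} (ξ : Fin 2 ⊕ Fin d → ℝ) (hξ : ξ ⬝ᵥ ξ = 1)
    (v : Fin d → (Fin 2 ⊕ Fin d → ℝ)) :
    ∃ O : Matrix (Fin 2 ⊕ Fin d) (Fin 2 ⊕ Fin d) ℝ, Oᵀ * O = 1 ∧
      O *ᵥ Pi.single (Sum.inl 0) 1 = ξ ∧
      ∀ i, (O *ᵥ Pi.single (Sum.inl 1) 1) ⬝ᵥ v i = 0 := sorry

/-! ### PS-17 (uses PS-16) -/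

theorem exists_NF {d : ℕ} (N : Fin d → Matrix (Fin 2 ⊕ Fin d) (Fin 2 ⊕ Fin d) ℝ)
    (hskew : ∀ i, (N i)ᵀ = -N i)
    (horth : ∀ i j, trace ((N i)ᵀ * N j) = if i = j then 2 else 0)
    (ζ : Fin 2 ⊕ Fin d → ℝ) (hζ : ζ ⬝ᵥ ζ = 1) :
    ∃ (S : NF d) (O : Matrix (Fin 2 ⊕ Fin d) (Fin 2 ⊕ Fin d) ℝ), Oᵀ * O = 1 ∧
      ∑ i, (N i *ᵥ ζ) ⬝ᵥ (N i *ᵥ ζ) ≤ d - S.be ∧
      ∀ (z τ : ℝ) (y : Fin d → ℝ) (i j : Fin d),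
        (N i *ᵥ (O *ᵥ vec z τ y)) ⬝ᵥ (N j *ᵥ (O *ᵥ vec z τ y)) = S.G z τ y i j := sorry

/-! ### PS-18 -/

theorem NP_gram {d : ℕ} (P₁ P₂ : Matrix (Fin d) (Fin d) ℝ) (a : Fin d → ℝ) (z₁ z₂ : ℝ)
    (y : Fin d → ℝ) :
    (Matrix.of fun i j => (NP P₁ P₂ a i *ᵥ vec z₁ z₂ y) ⬝ᵥ (NP P₁ P₂ a j *ᵥ vec z₁ z₂ y))
      = (z₁ • P₁ + z₂ • P₂) * (z₁ • P₁ + z₂ • P₂)ᵀ
        + vecMulVec (-(z₂ • a) - P₁ *ᵥ y) (-(z₂ • a) - P₁ *ᵥ y)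
        + vecMulVec (z₁ • a - P₂ *ᵥ y) (z₁ • a - P₂ *ᵥ y) := sorry

theorem NP_skew {d : ℕ} (P₁ P₂ : Matrix (Fin d) (Fin d) ℝ) (a : Fin d → ℝ) (i : Fin d) :
    (NP P₁ P₂ a i)ᵀ = -NP P₁ P₂ a i := sorry

theorem NP_trace {d : ℕ} (P₁ P₂ : Matrix (Fin d) (Fin d) ℝ) (a : Fin d → ℝ) (i j : Fin d) :
    trace ((NP P₁ P₂ a i)ᵀ * NP P₁ P₂ a j)
      = 2 * (P₁ * P₁ᵀ + P₂ * P₂ᵀ + vecMulVec a a) i j := sorry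

theorem NP_zeta {d : ℕ} (P₁ P₂ : Matrix (Fin d) (Fin d) ℝ) (a : Fin d → ℝ) (φ : ℝ) :
    ∑ i, (NP P₁ P₂ a i *ᵥ vec (Real.cos φ) (Real.sin φ) 0)
        ⬝ᵥ (NP P₁ P₂ a i *ᵥ vec (Real.cos φ) (Real.sin φ) 0)
      = ∑ i, ((∑ j, (Real.cos φ • P₁ + Real.sin φ • P₂) i j ^ 2) + a i ^ 2) := sorry

end Pool.Agent.Helper19.PS.Spec
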