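import Pool.Agent.Helper19.PS.DefsA
import Pool.Agent.Helper19.PS.Defs
import Pool.Agent.Helper20.VF.Asym
import Pool.Agent.Helper20.VF.Sphere

/-!
# Project PS (MP_19c155_gt): statements of the pieces of the first region (gain) and of the
constants.  Not imported by any result.
-/

open MeasureTheory Set Metric Filter Module Matrix
open scoped NNReal Topology RealInnerProductSpace ENNReal Real

namespace Pool.Agent.Helper19.PS.Spec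

open Pool.Agent.Helper20.VF

/-! ### PS-20 (adaptation of Helper77/OneVar.lean) -/

theorem oneVarG {n : ℕ} (hn : 5 ≤ n) : OneVarG n := sorry

/-! ### PS-21 (adaptation of Helper20/VF/CircB.lean) -/

theorem J_le_gain {n : ℕ} (hn : 5 ≤ n) {u : ℝ} (hu0 : 0 < u) (hu : u ≤ 1 / 2) :
    ∫ t in (0 : ℝ)..(2 * π), ((1 - u) * Real.cos t ^ 2 + u * Real.sin t ^ 2) ^ ((n : ℝ) / 2)
      ≤ (∫ t in (0 : ℝ)..(2 * π), |Real.cos t| ^ n) * (1 - u / 2) := sorry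

theorem circle_ineq_gain {n : ℕ} (hn : 5 ≤ n) (hW : OneVarG n) {a b a' b' : ℝ}
    (hpos : ∀ t, 0 < frm a b t)
    (hκ : ∀ t, 0 ≤ frm a' b' t) {δ δ' σ : ℝ → ℝ}
    (hδ : ∀ t, HasDerivAt δ (δ' t) t) (hδ'c : Continuous δ') (hper : δ (2 * π) = δ 0)
    (hσ : Continuous σ)
    (hstar : ∀ t, (2 * n + 3) * σ t - (3 * n + 6) * δ t ^ 2 ≤
      (2 * n + 3) * (frm a b t ^ n + n * frm a' b' t * frm a b t ^ (n - 1))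
        - (3 * n + 6) * frm a' b' t * frm a b t ^ n)
    (hδκ : ∀ t, δ t ^ 2 ≤ frm a' b' t * frm a b t ^ n) :
    ∃ φ u : ℝ, 0 < u ∧ u ≤ 1 / 2 ∧ frm a b φ = 1 - u ∧
    (∫ t in (0 : ℝ)..(2 * π), ((2 * n + 3) * (σ t - δ t ^ 2) - (n + 3) / (n + 1) * δ' t ^ 2)
        * frm a b t ^ (-((n : ℝ) / 2))
      ≤ 2 * (n + 1) * n * (2 * (∫ t in (0 : ℝ)..(2 * π), |Real.cos t| ^ n)
            * (1 - (n * u + (1 - frm a' b' φ)) / (2 * n))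
          - ∫ t in (0 : ℝ)..(2 * π), frm a b t ^ ((n : ℝ) / 2))) ∧
    ∫ t in (0 : ℝ)..(2 * π), frm a b t ^ ((n : ℝ) / 2)
      ≤ (∫ t in (0 : ℝ)..(2 * π), |Real.cos t| ^ n) * (1 - u / 2) := sorry

/-! ### PS-22 (adaptation of `pencil_ineq` in Helper20/VF/Pencil.lean and of `norm_bound` in
Helper20/VF/NormC.lean; uses PS-21) -/

theorem pencil_ineq_gain {n : ℕ} {P₁ P₂ : Matrix (Fin (n + 1)) (Fin (n + 1)) ℝ} (hn : 5 ≤ n)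
    (hW : OneVarG n) (hP : P₁ * P₁ᵀ + P₂ * P₂ᵀ = 1)
    (hpos : ∀ t, 0 < frm (pa P₁) (pb P₁ P₂) t) :
    ∃ φ u : ℝ, 0 < u ∧ u ≤ 1 / 2 ∧
    (∑ i : Fin n, ∑ j, Qc P₁ P₂ φ i.castSucc j ^ 2) = n * (1 - u) ∧
    (∫ t in (0 : ℝ)..(2 * π), ((2 * n + 3) * ((∑ i, ∑ j, (Qc P₁ P₂ t).adjugate i j ^ 2)
          - (Qc P₁ P₂ t).det ^ 2)
          - (n + 3) / (n + 1) * (trace ((Qc P₁ P₂ t).adjugate * Qs P₁ P₂ t)) ^ 2)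
        * frm (pa P₁) (pb P₁ P₂) t ^ (-((n : ℝ) / 2))
      ≤ 2 * (n + 1) * n * (2 * (∫ t in (0 : ℝ)..(2 * π), |Real.cos t| ^ n)
            * (1 - (n * u + (1 - ∑ j, Qc P₁ P₂ φ (Fin.last n) j ^ 2)) / (2 * n))
          - ∫ t in (0 : ℝ)..(2 * π), frm (pa P₁) (pb P₁ P₂) t ^ ((n : ℝ) / 2))) ∧
    ∫ t in (0 : ℝ)..(2 * π), frm (pa P₁) (pb P₁ P₂) t ^ ((n : ℝ) / 2)
      ≤ (∫ t in (0 : ℝ)..(2 * π), |Real.cos t| ^ n) * (1 - u / 2) := sorry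

theorem norm_bound_gain {n : ℕ} {P₁ P₂ : Matrix (Fin (n + 1)) (Fin (n + 1)) ℝ}
    {a : Fin (n + 1) → ℝ} (hn : 5 ≤ n) (hW : OneVarG n) (hP : P₁ * P₁ᵀ + P₂ * P₂ᵀ = 1)
    (hpos : ∀ t, 0 < frm (pa P₁) (pb P₁ P₂) t) (s : ℝ) (ha : a = s • Pi.single (Fin.last n) 1) :
    ∃ φ be : ℝ, 0 ≤ be ∧
    (∑ i : Fin n, ∑ j, Qc P₁ P₂ φ i.castSucc j ^ 2)
        + ((∑ j, Qc P₁ P₂ φ (Fin.last n) j ^ 2) + s ^ 2) / (1 + s ^ 2) = n + 1 - be ∧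
    ∫⁻ p : ℝ × ℝ, ∫⁻ y : EuclideanSpace ℝ (Fin (n + 1)), ENNReal.ofReal (√(p.1 ^ 2 + p.2 ^ 2 + ‖y‖ ^ 2)
        * √((Gm P₁ P₂ a y.ofLp p.1 p.2).det)
        * (gw y * Real.exp (-(p.1 ^ 2 + p.2 ^ 2) / 2)))
      ≤ ENNReal.ofReal (KN n * √(1 + s ^ 2) * (1 - be / (2 * n))) := sorry

/-! ### PS-23 -/

theorem kap_eq_KS (m : ℕ) (hm : 1 ≤ m) :
    2 * kap (2 * m - 1) = cst m * (2 ^ (2 * m - 1 + 1) * KS (2 * m - 1)) := sorry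

theorem KN_le_KS (m : ℕ) (hm : 1 ≤ m) :
    KN (2 * m - 1) * (1 - 1 / (64 * (m : ℝ) ^ 2)) ≤ KS (2 * m - 1) := sorry

end Pool.Agent.Helper19.PS.Spec
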